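import Pool.Agent.H83.UE.Targets4

/-!
# Row PRC (board udb_modules): covering of an algebraic set
-/

set_option autoImplicit false

open Set
open Pool.Agent.H83.UE

namespace Pool.Agent.H70.UDB

section covered

variable {k m : ℕ}

theorem cov_mono {X Y : Set (Fin k → ℂ)} (h : Covered m X) (hY : Y ⊆ X) : Covered m Y := by
  obtain ⟨n, c, r, ψ, h1, h2⟩ := h
  exact ⟨n, c, r, ψ, h1, hY.trans h2⟩

theorem cov_empty : Covered m (∅ : Set (Fin k → ℂ)) := by
  refine ⟨fun _ => 0, fun _ => 0, fun _ => 0, fun _ _ => 0, fun a => ⟨Nat.zero_le _, ?_, ?_⟩,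
    empty_subset _⟩
  · exact differentiableOn_const _
  · rw [Metric.ball_zero]
    exact injOn_empty _

theorem cov_iUnion {X : ℕ → Set (Fin k → ℂ)} (h : ∀ i, Covered m (X i)) :
    Covered m (⋃ i, X i) := by
  choose n c r ψ h1 h2 using h
  refine ⟨fun a => n a.unpair.1 a.unpair.2, fun a => c a.unpair.1 a.unpair.2,
    fun a => r a.unpair.1 a.unpair.2, fun a => ψ a.unpair.1 a.unpair.2,
    fun a => h1 a.unpair.1 a.unpair.2, ?_⟩
  intro z hz
  obtain ⟨i, hi⟩ := mem_iUnion.1 hz
  obtain ⟨b, hb⟩ := mem_iUnion.1 (h2 i hi)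
  rw [mem_iUnion]
  refine ⟨Nat.pair i b, ?_⟩
  change (fun p : ℕ × ℕ => z ∈ ψ p.1 p.2 '' Metric.ball (c p.1 p.2) (r p.1 p.2))
    (Nat.pair i b).unpair
  rw [Nat.unpair_pair]
  exact hb

theorem cov_union {X Y : Set (Fin k → ℂ)} (hX : Covered m X) (hY : Covered m Y) :
    Covered m (X ∪ Y) := by
  refine cov_mono (cov_iUnion (X := fun i : ℕ => if i = 0 then X else Y) fun i => ?_) ?_
  · change Covered m (if i = 0 then X else Y)
    split_ifs
    · exact hX
    · exact hY
  · rintro z (hz | hz)
    · exact mem_iUnion.2 ⟨0, by simpa using hz⟩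
    · exact mem_iUnion.2 ⟨1, by simpa using hz⟩

theorem cov_finite {ι : Type} (S : Set ι) (hS : S.Finite) (X : ι → Set (Fin k → ℂ))
    (h : ∀ i ∈ S, Covered m (X i)) : Covered m (⋃ i ∈ S, X i) := by
  induction S, hS using Set.Finite.induction_on with
  | empty =>
    rw [biUnion_empty]
    exact cov_empty
  | insert _ _ ih =>
    rw [biUnion_insert]
    exact cov_union (h _ (mem_insert _ _)) (ih fun i hi => h i (mem_insert_of_mem _ hi))

end covered

/-- zeros of an ideal -/
def VI {k : ℕ} (I : Ideal (MvPolynomial (Fin k) ℂ)) : Set (Fin k → ℂ) :=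
  {z | ∀ F ∈ I, MvPolynomial.eval z F = 0}

theorem pf_PRC (h1 : T_PRA) (h2 : T_PRB) : T_PRC := by
  intro k m I
  change (∀ B : Finset (Fin k), B.card = m + 1 → ∃ h ∈ I, h ≠ 0 ∧ h.vars ⊆ B) →
    Covered m (VI I)
  induction I using IsNoetherian.induction with
  | hgt I ih =>
    intro hI
    have hle : ∀ J : Ideal (MvPolynomial (Fin k) ℂ), I < J → Covered m (VI J) := by
      intro J hJ
      refine ih J hJ fun B hB => ?_
      obtain ⟨h, hh, h3⟩ := hI B hB
      exact ⟨h, hJ.le hh, h3⟩
    by_cases hp : Ideal.IsPrime I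
    · obtain ⟨B, G, hB, hG⟩ := h1 k I hp
      have hBm : B.card ≤ m := by
        by_contra hcon
        obtain ⟨B', hB', hc⟩ := Finset.exists_subset_card_eq (show m + 1 ≤ B.card by omega)
        obtain ⟨h, hh, h0, hv⟩ := hI B' hc
        exact h0 (hB h (hv.trans hB') hh)
      obtain ⟨c, r, ψ, h3, h4⟩ := h2 k B G fun j hj => (hG j hj).2.1
      have hgr : Covered m {z : Fin k → ℂ | ∀ j, j ∉ B → MvPolynomial.eval z (G j) = 0 ∧
          MvPolynomial.eval z (MvPolynomial.pderiv j (G j)) ≠ 0} :=
        ⟨fun _ => B.card, c, r, ψ, fun a => ⟨hBm, h3 a⟩, h4⟩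
      have hfin : Covered m (⋃ j ∈ {j : Fin k | j ∉ B},
          VI (I ⊔ Ideal.span {MvPolynomial.pderiv j (G j)})) := by
        refine cov_finite _ (Set.toFinite _) _ fun j hj => hle _ ?_
        refine lt_of_le_of_ne le_sup_left fun heq => (hG j hj).2.2 ?_
        rw [heq]
        exact Ideal.mem_sup_right (Ideal.subset_span rfl)
      refine cov_mono (cov_union hgr hfin) ?_
      intro z hz
      by_cases hall : ∀ j, j ∉ B → MvPolynomial.eval z (MvPolynomial.pderiv j (G j)) ≠ 0
      · left
        exact fun j hj => ⟨hz _ (hG j hj).1, hall j hj⟩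
      · right
        push Not at hall
        obtain ⟨j, hj, h5⟩ := hall
        rw [mem_iUnion]
        refine ⟨j, mem_iUnion.2 ⟨hj, ?_⟩⟩
        have h6 : I ⊔ Ideal.span {MvPolynomial.pderiv j (G j)} ≤
            RingHom.ker (MvPolynomial.eval z) := by
          refine sup_le (fun F hF => ?_) ?_
          · exact hz F hF
          · rw [Ideal.span_le]
            rintro F rfl
            exact h5
        exact fun F hF => h6 hF
    · by_cases htop : I = ⊤
      · refine cov_mono cov_empty ?_
        intro z hz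
        have h3 := hz 1 (by rw [htop]; trivial)
        rw [map_one] at h3
        exact absurd h3 one_ne_zero
      · refine cov_mono (cov_finite (Ideal.minimalPrimes I)
          (Ideal.finite_minimalPrimes_of_isNoetherianRing _ I) (fun P => VI P) ?_) ?_
        · intro P hP
          refine hle P (lt_of_le_of_ne hP.1.2 fun heq => hp ?_)
          rw [heq]
          exact hP.1.1
        · intro z hz
          have : (RingHom.ker (MvPolynomial.eval z)).IsPrime := RingHom.ker_isPrime _
          have h3 : I ≤ RingHom.ker (MvPolynomial.eval z) := fun F hF => hz F hF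
          obtain ⟨P, hP, hPz⟩ := Ideal.exists_minimalPrimes_le h3
          rw [mem_iUnion]
          exact ⟨P, mem_iUnion.2 ⟨hP, fun F hF => hPz hF⟩⟩

end Pool.Agent.H70.UDB
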